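import Pool.Agent.H41.CP.Stmts

set_option autoImplicit false

/-!
An R-block and a C-block of the same triple of permutations (`S_RC`).
-/

namespace Pool.Agent.H806.CP

open Pool.Agent.H41.CP

/-- The elementary content of a blocking rectangle. -/
theorem rb_facts {F : Fin 3 → P6} {g : P6} {S T : Finset (Fin 6)} (h : RB F g S T) :
    (∀ x ∈ S, ∀ i, F i x ∈ T) ∧ (∀ x ∈ S, ∀ i, g x ≠ F i x) ∧
    (∀ x ∈ S, ∀ c ∈ T, c = g x ∨ ∃ i, c = F i x) ∧
    (∀ x ∈ S, Function.Injective fun i => F i x) := by
  obtain ⟨-, hT, hx⟩ := h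
  have key : ∀ x ∈ S, g x ∉ (Finset.univ.image fun i => F i x) ∧
      (Finset.univ.image fun i => F i x).card = 3 := by
    intro x hxS
    have h1 := hx x hxS
    have h2 : (Finset.univ.image fun i => F i x).card ≤ 3 := by
      refine Finset.card_image_le.trans ?_
      simp
    have h3 : (insert (g x) (Finset.univ.image fun i => F i x)).card = 4 := by rw [h1, hT]
    by_cases hg : g x ∈ (Finset.univ.image fun i => F i x)
    · rw [Finset.insert_eq_of_mem hg] at h3
      omega
    · rw [Finset.card_insert_of_notMem hg] at h3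
      exact ⟨hg, by omega⟩
  refine ⟨?_, ?_, ?_, ?_⟩
  · intro x hxS i
    rw [← hx x hxS]
    exact Finset.mem_insert_of_mem (Finset.mem_image_of_mem _ (Finset.mem_univ i))
  · intro x hxS i he
    apply (key x hxS).1
    rw [he]
    exact Finset.mem_image_of_mem (fun i => F i x) (Finset.mem_univ i)
  · intro x hxS c hc
    rw [← hx x hxS, Finset.mem_insert] at hc
    rcases hc with hc | hc
    · exact Or.inl hc
    · obtain ⟨i, -, hi⟩ := Finset.mem_image.1 hc
      exact Or.inr ⟨i, hi.symm⟩
  · intro x hxS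
    have h4 := (key x hxS).2
    have h5 : (Finset.univ.image fun i => F i x).card = (Finset.univ : Finset (Fin 3)).card := by
      rw [h4]; simp
    have h6 := Finset.card_image_iff.1 h5
    intro i j hij
    exact h6 (Finset.mem_coe.2 (Finset.mem_univ i)) (Finset.mem_coe.2 (Finset.mem_univ j)) hij

theorem rc : S_RC := by
  intro F g g' S T S' T' h h'
  obtain ⟨A1, A2, A3, -⟩ := rb_facts h
  obtain ⟨B1, -, B3, B4⟩ := rb_facts h'
  have hS : S.card = 3 := h.1
  have hT : T.card = 4 := h.2.1
  have hT' : T'.card = 3 := h'.1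
  have hS' : S'.card = 4 := h'.2.1
  -- a value in `T'` forces the row into `S'`
  have C1 : ∀ i x, F i x ∈ T' → x ∈ S' := by
    intro i x hx
    have h1 := B1 (F i x) hx i
    simpa [inv3] using h1
  -- the rows of `S'`
  have C2 : ∀ t ∈ T', ∀ y ∈ S', g' y = t ∨ ∃ i, F i y = t := by
    intro t ht y hy
    rcases B3 t ht y hy with h1 | ⟨i, h1⟩
    · left; rw [h1]; simp
    · right; refine ⟨i, ?_⟩; rw [h1]; simp [inv3]
  have hSS : S ⊆ S' := by
    intro x hxS
    by_contra hxS'
    have h1 : ∀ c ∈ T, c ∈ T' → c = g x := by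
      intro c hc hc'
      rcases A3 x hxS c hc with h2 | ⟨i, h2⟩
      · exact h2
      · exact absurd (C1 i x (h2 ▸ hc')) hxS'
    -- another row of `S`
    obtain ⟨y, hyS, hyx⟩ : ∃ y ∈ S, y ≠ x := by
      by_contra hcon
      push Not at hcon
      have h2 : S ⊆ {x} := fun y hy => Finset.mem_singleton.2 (hcon y hy)
      have h3 := Finset.card_le_card h2
      simp at h3
      omega
    have h4 : g x ∈ T ∧ g x ∈ T' := by
      have h5 : (T ∪ T').card ≤ 6 := by
        have := Finset.card_le_univ (T ∪ T')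
        simpa using this
      have h6 := Finset.card_union_add_card_inter T T'
      have h7 : 0 < (T ∩ T').card := by omega
      obtain ⟨c, hc⟩ := Finset.card_pos.1 h7
      rw [Finset.mem_inter] at hc
      have h8 := h1 c hc.1 hc.2
      rw [← h8]
      exact hc
    have hyS' : y ∈ S' := by
      rcases A3 y hyS (g x) h4.1 with h5 | ⟨i, h5⟩
      · exact absurd (g.injective h5).symm hyx
      · exact C1 i y (h5 ▸ h4.2)
    -- the elements of `T'` different from `g' y` and `g x`
    have h5 : T' ⊆ {g' y, g x} := by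
      intro t ht
      rcases C2 t ht y hyS' with h6 | ⟨i, h6⟩
      · rw [← h6]; simp
      · have h7 : t ∈ T := by rw [← h6]; exact A1 y hyS i
        rw [h1 t h7 ht]; simp
    have h6 := Finset.card_le_card h5
    have h7 : ({g' y, g x} : Finset (Fin 6)).card ≤ 2 := Finset.card_le_two
    omega
  have hTT : T' ⊆ T := by
    intro t ht
    by_contra htT
    have h1 : (Finset.univ.image fun i => (inv3 F) i t) ⊆ S' \ S := by
      intro y hy
      obtain ⟨i, -, hi⟩ := Finset.mem_image.1 hy
      rw [Finset.mem_sdiff]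
      refine ⟨hi ▸ B1 t ht i, fun hyS => htT ?_⟩
      have h2 := A1 y hyS i
      rw [← hi] at h2
      simpa [inv3] using h2
    have h2 := Finset.card_le_card h1
    rw [Finset.card_image_of_injective _ (B4 t ht), Finset.card_sdiff_of_subset hSS] at h2
    simp at h2
    omega
  refine ⟨hSS, hTT, ?_⟩
  intro x hxS hgx
  rcases C2 (g x) hgx x (hSS hxS) with h1 | ⟨i, h1⟩
  · exact h1
  · exact absurd h1.symm (A2 x hxS i)

end Pool.Agent.H806.CP
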